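import Pool.Agent.Helper41.T3.RL2

/-!
# Packet T3-RL (MP_a41896_nt), part 3: the bounds
-/

set_option autoImplicit false

open MvPolynomial

namespace Pool.Agent.Helper41.T3.RL

open Pool.Agent.Helper29.BL Pool.Agent.Helper42.SG
open Pool.Agent.Helper5.UN (hv)
open Pool.Agent.Helper92.ZH (sepV)
open Pool.Agent.Helper31.ZH.DETN (nzero nprod)
open Pool.Agent.Helper60.T3 (mc)
open Pool.Agent.Helper65.SG (NPol)

section bounds

variable {K : Type} [Field K] {σ : Type} [Fintype σ] [DecidableEq σ]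

/-- the coefficients of `sepV` -/
lemma sepV_mc (k : σ) (q : MvPolynomial σ K) (v : AbsoluteValue K ℝ) (t : ℕ) (m : σ →₀ ℕ) :
    v (coeff m ((sepV k q).coeff t)) ≤ max 1 (mc v q) := by
  rw [Pool.Agent.Helper41.ZH.SEPV.coeff_sepV]
  split_ifs
  · exact (le_mc v q _).trans (le_max_right _ _)
  · rw [map_zero]
    exact zero_le_one.trans (le_max_left _ _)

/-- the exponents of `sepV` -/
lemma sepV_exp (k : σ) (q : MvPolynomial σ K) (c : σ → ℕ) (hq : ∀ l, q.degreeOf l ≤ c l) (t : ℕ) :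
    ∀ m ∈ ((sepV k q).coeff t).support, ∀ l, m l ≤ wo k c l := fun _ hm l =>
  Pool.Agent.Helper16.UN.deg_le' (fun l => sepV_deg k q c hq t l) hm l

/-- the coefficients of `sepV` in a frame -/
lemma sepV_frame {A : Type} [CommRing A] [Algebra K A] {v : AbsoluteValue K ℝ} {Nm : A → ℝ → Prop}
    (hN : NFr v Nm) (X : σ → A) (r : σ → ℝ) (hr : ∀ i, 1 ≤ r i) (hX : ∀ i, Nm (X i) (r i)) (N : ℕ)
    (k : σ) (q : MvPolynomial σ K) (c : σ → ℕ) (hc : ∀ l, c l ≤ N) (hq : ∀ l, q.degreeOf l ≤ c l) (t : ℕ) :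
    Nm (aeval X ((sepV k q).coeff t))
      (cst v ((N + 1 : ℕ) ^ Fintype.card σ : ℕ) * (max 1 (mc v q) * ∏ i, r i ^ wo k c i)) := by
  refine fr_poly2 hN X r hr hX _ (wo k c) (sepV_exp k q c hq t) _ _ (zero_le_one.trans (le_max_left _ _))
    (fun m => sepV_mc k q v t m) ?_
  refine Nat.cast_le.mpr (card_supp _ N fun m hm i => ?_)
  refine (sepV_exp k q c hq t m hm i).trans ?_
  unfold wo
  split_ifs
  · exact Nat.zero_le _
  · exact hc i

variable (k : σ) (a b : σ → ℕ) (p h : MvPolynomial σ K) (hp : ∀ l, p.degreeOf l ≤ a l)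
  (hh : ∀ l, h.degreeOf l ≤ b l) (N : ℕ) (ha : ∀ l, a l ≤ N) (hb : ∀ l, b l ≤ N)

/-- the constant -/
noncomputable def BB (K : Type) [Field K] (σ : Type) [Fintype σ] (N : ℕ) (v : AbsoluteValue K ℝ) : ℝ :=
  cst v (2 * N).factorial * cst v ((N + 1 : ℕ) ^ Fintype.card σ : ℕ) ^ (2 * N)

include ha hb in
omit [DecidableEq σ] in
/-- constants -/
lemma BB_le (v : AbsoluteValue K ℝ) {x y : ℝ} (hx : 0 ≤ x) (hy : 0 ≤ y) :
    cst v (a k + b k).factorial * ((cst v ((N + 1 : ℕ) ^ Fintype.card σ : ℕ) * x) ^ a k *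
      (cst v ((N + 1 : ℕ) ^ Fintype.card σ : ℕ) * y) ^ b k) ≤ BB K σ N v * (y ^ b k * x ^ a k) := by
  have hN : a k + b k ≤ 2 * N := by
    have := ha k
    have := hb k
    omega
  have h1 : (1 : ℝ) ≤ ((N + 1 : ℕ) ^ Fintype.card σ : ℕ) := by
    exact_mod_cast Nat.one_le_iff_ne_zero.mpr (pow_ne_zero _ (Nat.succ_ne_zero N))
  have hc1 := one_le_cst v h1
  set c := cst v ((N + 1 : ℕ) ^ Fintype.card σ : ℕ) with hc
  have h2 : cst v ((a k + b k).factorial : ℝ) ≤ cst v ((2 * N).factorial : ℝ) :=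
    cst_mono v (by exact_mod_cast Nat.factorial_le hN)
  have h3 : c ^ (a k + b k) ≤ c ^ (2 * N) := pow_le_pow_right₀ hc1 hN
  have h4 : (1 : ℝ) ≤ (2 * N).factorial := by exact_mod_cast Nat.one_le_iff_ne_zero.mpr (Nat.factorial_ne_zero _)
  have h5 : 0 ≤ cst v ((2 * N).factorial : ℝ) := (cst_pos v h4).le
  have h6 : (c * x) ^ a k * (c * y) ^ b k = c ^ (a k + b k) * (y ^ b k * x ^ a k) := by
    rw [mul_pow, mul_pow, pow_add]
    ring
  rw [h6, ← mul_assoc]
  unfold BB
  rw [← hc]
  refine mul_le_mul_of_nonneg_right ?_ (mul_nonneg (pow_nonneg hy _) (pow_nonneg hx _))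
  exact mul_le_mul h2 h3 (pow_nonneg (zero_le_one.trans hc1) _) h5

include hp hh ha hb in
/-- the coefficients of the resultant -/
lemma coeff_bound (v : AbsoluteValue K ℝ) (m : σ →₀ ℕ) :
    v (coeff m (SM k a b p h).det) ≤ BB K σ N v * max 1 (mc v p) ^ b k * max 1 (mc v h) ^ a k := by
  obtain ⟨hN, hX, hco⟩ := Pool.Agent.Helper73.SGT.t_FRPO Pool.Agent.Helper65.SG.t_FRPS K v σ
  have hp1 : 0 ≤ max 1 (mc v p) := zero_le_one.trans (le_max_left _ _)
  have hh1 : 0 ≤ max 1 (mc v h) := zero_le_one.trans (le_max_left _ _)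
  have h1 : (1 : ℝ) ≤ ((N + 1 : ℕ) ^ Fintype.card σ : ℕ) := by
    exact_mod_cast Nat.one_le_iff_ne_zero.mpr (pow_ne_zero _ (Nat.succ_ne_zero N))
  have hc0 : 0 ≤ cst v ((N + 1 : ℕ) ^ Fintype.card σ : ℕ) := (cst_pos v h1).le
  set c := cst v ((N + 1 : ℕ) ^ Fintype.card σ : ℕ) with hc
  have hS : ∀ i j, NPol v (SM k a b p h i j) (col k a b (c * max 1 (mc v h)) (c * max 1 (mc v p)) j) := by
    intro i j
    refine SM_all k a b p h (Pr := fun j q => NPol v q (col k a b (c * max 1 (mc v h)) (c * max 1 (mc v p)) j))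
      (fun j => ?_) (fun j t => ?_) (fun j t => ?_) i j
    · refine hN.mono _ _ _ (nzero hN) ?_
      induction j using Fin.addCases with
      | left j => rw [col_left]; exact mul_nonneg hc0 hh1
      | right j => rw [col_right]; exact mul_nonneg hc0 hp1
    · rw [col_left]
      have h2 := sepV_frame hN X (fun _ => 1) (fun _ => le_rfl) hX N k h b hb hh t
      rw [aeval_X_left, AlgHom.id_apply] at h2
      simp only [one_pow, Finset.prod_const_one, mul_one] at h2
      exact h2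
    · rw [col_right]
      have h2 := sepV_frame hN X (fun _ => 1) (fun _ => le_rfl) hX N k p a ha hp t
      rw [aeval_X_left, AlgHom.id_apply] at h2
      simp only [one_pow, Finset.prod_const_one, mul_one] at h2
      exact h2
  have hR : 0 ≤ ∏ j, col k a b (c * max 1 (mc v h)) (c * max 1 (mc v p)) j := by
    rw [prod_col]
    positivity
  have h3 := det_frame hN (SM k a b p h) hR fun π => nprod hN Finset.univ _ _ fun j => hS (π j) j
  have h4 := hco _ _ m h3
  rw [prod_col] at h4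
  refine h4.trans ?_
  rw [mul_assoc]
  exact BB_le k a b N ha hb v hh1 hp1

/-- `∑ z^i c_(i - j)` -/
lemma row_sum (z : K) (A B j : ℕ) (hj : j < A) (f : ℕ → K) :
    ∑ i : Fin (A + B), z ^ (i : ℕ) * (if (i : ℕ) ∈ Set.Icc j (j + B) then f (i - j) else 0) =
      z ^ j * ∑ s ∈ Finset.range (B + 1), f s * z ^ s := by
  rw [Fin.sum_univ_eq_sum_range (fun i => z ^ i * (if i ∈ Set.Icc j (j + B) then f (i - j) else 0)) (A + B),
    Finset.mul_sum]
  simp_rw [mul_ite, mul_zero]
  rw [← Finset.sum_filter]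
  refine Finset.sum_nbij' (fun i => i - j) (fun s => s + j) ?_ ?_ ?_ ?_ ?_
  · intro i hi
    have h1 := (Finset.mem_filter.mp hi).2
    rw [Set.mem_Icc] at h1
    exact Finset.mem_range.mpr (by omega)
  · intro s hs
    have h1 := Finset.mem_range.mp hs
    refine Finset.mem_filter.mpr ⟨Finset.mem_range.mpr (by omega), ?_⟩
    rw [Set.mem_Icc]
    omega
  · intro i hi
    have h1 := (Finset.mem_filter.mp hi).2
    rw [Set.mem_Icc] at h1
    omega
  · intro s _
    omega
  · intro i hi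
    have h1 := (Finset.mem_filter.mp hi).2
    rw [Set.mem_Icc] at h1
    have h2 : i = j + (i - j) := by omega
    have h3 : z ^ i = z ^ j * z ^ (i - j) := by rw [← pow_add, ← h2]
    rw [h3]
    ring

omit [DecidableEq σ] in
lemma prod_wo [DecidableEq σ] (k : σ) (c : σ → ℕ) (r : σ → ℝ) :
    ∏ i, r i ^ wo k c i = ∏ i ∈ Finset.univ.erase k, r i ^ c i := by
  rw [← Finset.mul_prod_erase Finset.univ _ (Finset.mem_univ k)]
  unfold wo
  rw [if_pos rfl, pow_zero, one_mul]
  refine Finset.prod_congr rfl fun i hi => ?_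
  rw [if_neg (Finset.mem_erase.mp hi).1]

/-- the value of a polynomial -/
lemma eval_sum (k : σ) (q : MvPolynomial σ K) (c : ℕ) (hq : q.degreeOf k ≤ c) (x : σ → K) :
    ∑ s ∈ Finset.range (c + 1), eval x ((sepV k q).coeff s) * x k ^ s = eval x q := by
  obtain ⟨h1, -, -, -, h5, -⟩ := Pool.Agent.Helper41.ZH.SEPV.t K σ k q
  have h2 := h5 K x (x k)
  rw [Function.update_eq_self, Polynomial.eval_map, Polynomial.eval₂_eq_sum_range' _
    (show (sepV k q).natDegree < c + 1 by rw [h1]; omega)] at h2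
  have h3 : aeval x q = eval x q := RingHom.congr_fun (coe_aeval_eq_eval x) q
  rw [← h3, ← h2]
  refine Finset.sum_congr rfl fun s _ => ?_
  congr 1

include hp hh ha hb in
/-- the local inequality -/
lemma local_bound (hA : 1 ≤ a k) (hB : 1 ≤ b k) (v : AbsoluteValue K ℝ) (x : σ → K) :
    v (eval x (SM k a b p h).det) ≤ BB K σ N v * max 1 (mc v p) ^ b k * max 1 (mc v h) ^ a k *
      (∏ l ∈ Finset.univ.erase k, Mv v (x l) ^ (b k * a l + a k * b l)) *
      max (v (eval x p) / Mv v (x k) ^ a k) (v (eval x h) / Mv v (x k) ^ b k) := by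
  classical
  have hN := frK v
  have hM1 : ∀ l, 1 ≤ Mv v (x l) := fun l => le_max_left _ _
  have hM0 : ∀ l, 0 < Mv v (x l) := fun l => lt_of_lt_of_le one_pos (hM1 l)
  have hXM : ∀ l, v (x l) ≤ Mv v (x l) := fun l => le_max_right _ _
  have hp1 : 1 ≤ max 1 (mc v p) := le_max_left _ _
  have hh1 : 1 ≤ max 1 (mc v h) := le_max_left _ _
  have h1 : (1 : ℝ) ≤ ((N + 1 : ℕ) ^ Fintype.card σ : ℕ) := by
    exact_mod_cast Nat.one_le_iff_ne_zero.mpr (pow_ne_zero _ (Nat.succ_ne_zero N))
  have hc1 : 1 ≤ cst v ((N + 1 : ℕ) ^ Fintype.card σ : ℕ) := one_le_cst v h1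
  set c := cst v ((N + 1 : ℕ) ^ Fintype.card σ : ℕ) with hc
  -- the bounds of the columns
  set Ph : ℝ := ∏ l, Mv v (x l) ^ wo k b l with hPh
  set Pp : ℝ := ∏ l, Mv v (x l) ^ wo k a l with hPp
  have hprod1 : ∀ d : σ → ℕ, 1 ≤ ∏ l, Mv v (x l) ^ d l := fun d => by
    have h2 := Finset.prod_le_prod (s := Finset.univ) (f := fun _ : σ => (1 : ℝ))
      (g := fun l => Mv v (x l) ^ d l) (fun _ _ => zero_le_one) fun l _ => one_le_pow₀ (hM1 l)
    rwa [Finset.prod_const_one] at h2
  have hPh1 : 1 ≤ Ph := hprod1 _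
  have hPp1 : 1 ≤ Pp := hprod1 _
  set T := col k a b (c * (max 1 (mc v h) * Ph)) (c * (max 1 (mc v p) * Pp)) with hT
  have hT1 : ∀ j, 1 ≤ T j := by
    intro j
    induction j using Fin.addCases with
    | left j =>
      rw [hT, col_left]
      exact one_le_mul_of_one_le_of_one_le hc1 (one_le_mul_of_one_le_of_one_le hh1 hPh1)
    | right j =>
      rw [hT, col_right]
      exact one_le_mul_of_one_le_of_one_le hc1 (one_le_mul_of_one_le_of_one_le hp1 hPp1)
  have hS : ∀ i j, v (eval x (SM k a b p h i j)) ≤ T j := by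
    intro i j
    refine SM_all k a b p h (Pr := fun j q => v (eval x q) ≤ T j) (fun j => ?_) (fun j t => ?_)
      (fun j t => ?_) i j
    · rw [map_zero, map_zero]
      exact zero_le_one.trans (hT1 j)
    · rw [hT, col_left]
      have h2 := sepV_frame hN x (fun l => Mv v (x l)) hM1 hXM N k h b hb hh t
      have h3 : aeval x ((sepV k h).coeff t) = eval x ((sepV k h).coeff t) :=
        RingHom.congr_fun (coe_aeval_eq_eval x) _
      rw [h3] at h2
      exact h2
    · rw [hT, col_right]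
      have h2 := sepV_frame hN x (fun l => Mv v (x l)) hM1 hXM N k p a ha hp t
      have h3 : aeval x ((sepV k p).coeff t) = eval x ((sepV k p).coeff t) :=
        RingHom.congr_fun (coe_aeval_eq_eval x) _
      rw [h3] at h2
      exact h2
  -- the determinant
  set Sx : Matrix (Fin (a k + b k)) (Fin (a k + b k)) K := (eval x).mapMatrix (SM k a b p h) with hSx
  have hdet : eval x (SM k a b p h).det = Sx.det := RingHom.map_det _ _
  have hSxe : ∀ i j, Sx i j = eval x (SM k a b p h i j) := fun i j => rfl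
  set w : Fin (a k + b k) → K := fun i => x k ^ (i : ℕ) with hw
  set M := Mv v (x k) with hM
  set E : ℝ := max (M ^ (b k - 1) * v (eval x p)) (M ^ (a k - 1) * v (eval x h)) with hE
  have hE0 : 0 ≤ E := (mul_nonneg (pow_nonneg (hM0 k).le _) (v.nonneg _)).trans (le_max_left _ _)
  have hrow : ∀ j, v ((∑ i, w i • Sx i) j) ≤ E := by
    intro j
    rw [Finset.sum_apply]
    simp only [Pi.smul_apply, smul_eq_mul]
    induction j using Fin.addCases with
    | left j =>
      have h2 : ∑ i, w i * Sx i (Fin.castAdd (b k) j) = x k ^ (j : ℕ) * eval x h := by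
        rw [← eval_sum k h (b k) (hh k) x, ← row_sum (x k) (a k) (b k) j j.2]
        refine Finset.sum_congr rfl fun i _ => ?_
        rw [hSxe, SM_left, apply_ite (eval x), map_zero]
      rw [h2, map_mul, map_pow]
      refine le_trans ?_ (le_max_right _ _)
      refine mul_le_mul_of_nonneg_right ?_ (v.nonneg _)
      refine (pow_le_pow_left₀ (v.nonneg _) (hXM k) _).trans (pow_le_pow_right₀ (hM1 k) ?_)
      have := j.2
      omega
    | right j =>
      have h2 : ∑ i, w i * Sx i (Fin.natAdd (a k) j) = x k ^ (j : ℕ) * eval x p := by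
        rw [← eval_sum k p (a k) (hp k) x, ← row_sum (x k) (b k) (a k) j j.2]
        have h3 : ∑ i : Fin (b k + a k), x k ^ (i : ℕ) * (if (i : ℕ) ∈ Set.Icc (j : ℕ) (j + a k) then
            eval x ((sepV k p).coeff (i - j)) else 0) =
            ∑ i : Fin (a k + b k), x k ^ (i : ℕ) * (if (i : ℕ) ∈ Set.Icc (j : ℕ) (j + a k) then
            eval x ((sepV k p).coeff (i - j)) else 0) := by
          rw [Fin.sum_univ_eq_sum_range (fun i => x k ^ i * (if i ∈ Set.Icc (j : ℕ) (j + a k) then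
            eval x ((sepV k p).coeff (i - j)) else 0)) (b k + a k),
            Fin.sum_univ_eq_sum_range (fun i => x k ^ i * (if i ∈ Set.Icc (j : ℕ) (j + a k) then
            eval x ((sepV k p).coeff (i - j)) else 0)) (a k + b k), add_comm]
        rw [h3]
        refine Finset.sum_congr rfl fun i _ => ?_
        rw [hSxe, SM_right, apply_ite (eval x), map_zero]
      rw [h2, map_mul, map_pow]
      refine le_trans ?_ (le_max_left _ _)
      refine mul_le_mul_of_nonneg_right ?_ (v.nonneg _)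
      refine (pow_le_pow_left₀ (v.nonneg _) (hXM k) _).trans (pow_le_pow_right₀ (hM1 k) ?_)
      have := j.2
      omega
  -- the special row
  obtain ⟨t0, ht0⟩ : ∃ t0, v (w t0) = M ^ (a k + b k - 1) := by
    by_cases h2 : v (x k) ≤ 1
    · refine ⟨⟨0, by omega⟩, ?_⟩
      have h3 : M = 1 := max_eq_left h2
      rw [h3, one_pow, hw]
      simp
    · refine ⟨⟨a k + b k - 1, by omega⟩, ?_⟩
      have h3 : M = v (x k) := max_eq_right (not_le.mp h2).le
      rw [h3, hw]
      simp
  have hupd := Matrix.det_updateRow_sum Sx t0 w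
  have hprod : ∀ π : Equiv.Perm (Fin (a k + b k)),
      v (∏ j, (Sx.updateRow t0 (∑ i, w i • Sx i)) (π j) j) ≤ E * ∏ j, T j := by
    intro π
    rw [map_prod, ← Finset.mul_prod_erase Finset.univ _ (Finset.mem_univ (π.symm t0)),
      Equiv.apply_symm_apply, Matrix.updateRow_self]
    have h2 : ∏ j ∈ Finset.univ.erase (π.symm t0), v ((Sx.updateRow t0 (∑ i, w i • Sx i)) (π j) j) ≤
        ∏ j ∈ Finset.univ.erase (π.symm t0), T j := by
      refine Finset.prod_le_prod (fun _ _ => v.nonneg _) fun j hj => ?_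
      have hne : π j ≠ t0 := fun h3 => (Finset.mem_erase.mp hj).1 (by rw [← h3, Equiv.symm_apply_apply])
      rw [Matrix.updateRow_ne hne]
      exact hS _ _
    have h3 : ∏ j ∈ Finset.univ.erase (π.symm t0), T j ≤ ∏ j, T j := by
      rw [← Finset.mul_prod_erase Finset.univ T (Finset.mem_univ (π.symm t0))]
      exact le_mul_of_one_le_left (Finset.prod_nonneg fun j _ => zero_le_one.trans (hT1 j)) (hT1 _)
    exact mul_le_mul (hrow _) (h2.trans h3) (Finset.prod_nonneg fun _ _ => v.nonneg _) hE0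
  have hTp : 0 ≤ ∏ j, T j := Finset.prod_nonneg fun j _ => zero_le_one.trans (hT1 j)
  have h5 := det_frame hN (Sx.updateRow t0 (∑ i, w i • Sx i)) (mul_nonneg hE0 hTp) hprod
  rw [hupd, smul_eq_mul, map_mul, ht0] at h5
  rw [hdet]
  have hMp : 0 < M ^ (a k + b k - 1) := pow_pos (hM0 k) _
  have h6 : v Sx.det ≤ cst v (a k + b k).factorial * ((∏ j, T j) * (E / M ^ (a k + b k - 1))) := by
    have h7 : v Sx.det ≤ (cst v (a k + b k).factorial * (E * ∏ j, T j)) / M ^ (a k + b k - 1) := by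
      rw [le_div_iff₀ hMp, mul_comm]
      exact h5
    refine h7.trans (le_of_eq ?_)
    ring
  have h7 : E / M ^ (a k + b k - 1) = max (v (eval x p) / M ^ a k) (v (eval x h) / M ^ b k) := by
    have hne : M ≠ 0 := (hM0 k).ne'
    rw [hE, ← max_div_div_right hMp.le]
    congr 1
    · have h8 : M ^ (a k + b k - 1) = M ^ (b k - 1) * M ^ a k := by
        rw [← pow_add]
        congr 1
        omega
      rw [h8, mul_div_mul_left _ _ (pow_ne_zero _ hne)]
    · have h8 : M ^ (a k + b k - 1) = M ^ (a k - 1) * M ^ b k := by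
        rw [← pow_add]
        congr 1
        omega
      rw [h8, mul_div_mul_left _ _ (pow_ne_zero _ hne)]
  have h8 : ∏ j, T j = (c * (max 1 (mc v h) * Ph)) ^ a k * (c * (max 1 (mc v p) * Pp)) ^ b k := prod_col k a b _ _
  have h9 : ∏ l ∈ Finset.univ.erase k, Mv v (x l) ^ (b k * a l + a k * b l) = Pp ^ b k * Ph ^ a k := by
    rw [hPp, hPh, prod_wo, prod_wo, ← Finset.prod_pow, ← Finset.prod_pow, ← Finset.prod_mul_distrib]
    refine Finset.prod_congr rfl fun l _ => ?_
    rw [pow_add, ← pow_mul, ← pow_mul, mul_comm (a l), mul_comm (b l)]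
  have h10 : 0 ≤ max (v (eval x p) / M ^ a k) (v (eval x h) / M ^ b k) :=
    (div_nonneg (v.nonneg _) (pow_nonneg (hM0 k).le _)).trans (le_max_left _ _)
  rw [h7, h8] at h6
  refine h6.trans ?_
  rw [← mul_assoc, h9]
  refine mul_le_mul_of_nonneg_right ?_ h10
  have h11 := BB_le k a b N ha hb v (x := max 1 (mc v h) * Ph) (y := max 1 (mc v p) * Pp)
    (mul_nonneg (zero_le_one.trans hh1) (zero_le_one.trans hPh1))
    (mul_nonneg (zero_le_one.trans hp1) (zero_le_one.trans hPp1))
  refine h11.trans (le_of_eq ?_)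
  rw [mul_pow, mul_pow]
  ring

end bounds

theorem t : Pool.Agent.Helper60.T3.S_RL := by
  classical
  intro K _ _ σ _ _ N
  have h1 : (1 : ℝ) ≤ ((N + 1 : ℕ) ^ Fintype.card σ : ℕ) := by
    exact_mod_cast Nat.one_le_iff_ne_zero.mpr (pow_ne_zero _ (Nat.succ_ne_zero N))
  have h4 : (1 : ℝ) ≤ (2 * N).factorial := by
    exact_mod_cast Nat.one_le_iff_ne_zero.mpr (Nat.factorial_ne_zero _)
  refine ⟨BB K σ N, ?_, ?_⟩
  · have h5 : BB K σ N = fun v : AbsoluteValue K ℝ =>
        cst v (((2 * N).factorial : ℝ) * (((N + 1 : ℕ) ^ Fintype.card σ : ℕ) : ℝ) ^ (2 * N)) := by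
      funext v
      unfold BB
      rw [cst_mul, cst_pow]
    rw [h5]
    exact Pool.Agent.Helper62.SGB.plc_cst (one_le_mul_of_one_le_of_one_le h4 (one_le_pow₀ h1))
  · intro k a b p h hab hA hB hp hh
    have ha : ∀ l, a l ≤ N := fun l => (hab l).1
    have hb : ∀ l, b l ≤ N := fun l => (hab l).2
    refine ⟨(SM k a b p h).det, det_deg k a b p h hp hh, ?_, ?_, ?_⟩
    · intro Ω _ _ _ y h0
      exact nonvan k a b p h hp hh (algebraMap K Ω) y h0
    · intro v m
      exact coeff_bound k a b p h hp hh N ha hb v m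
    · intro v x
      exact local_bound k a b p h hp hh N ha hb hA hB v x

end Pool.Agent.Helper41.T3.RL
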