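import Pool.Agent.Helper60.T3.Defs
import Pool.Agent.Helper41.ZH.SEPV
import Pool.Agent.Helper31.ZH.DETN
import Pool.Agent.Helper92.PN.Frame
import Pool.Agent.Helper73.SGT.FRPO
import Pool.Agent.Helper16.UN.HVB

/-!
# Packet T3-RL (MP_a41896_nt), part 1: determinants in norm frames, degrees, multihomogeneous values
-/

set_option autoImplicit false

open MvPolynomial

namespace Pool.Agent.Helper41.T3.RL

open Pool.Agent.Helper29.BL Pool.Agent.Helper42.SG
open Pool.Agent.Helper5.UN (hv)
open Pool.Agent.Helper92.ZH (sepV)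
open Pool.Agent.Helper31.ZH.DETN (nzero none' nneg nprod nsum)
open Pool.Agent.Helper92.PN (fr_mono)

/-! ## Norm frames -/

section frames

variable {K : Type} [Field K] {v : AbsoluteValue K ℝ} {A : Type} [CommRing A] [Algebra K A]
  {N : A → ℝ → Prop}

/-- a determinant in a norm frame -/
lemma det_frame (hN : NFr v N) {n : ℕ} (M : Matrix (Fin n) (Fin n) A) {R : ℝ} (hR : 0 ≤ R)
    (h : ∀ π : Equiv.Perm (Fin n), N (∏ j, M (π j) j) R) : N M.det (cst v n.factorial * R) := by
  classical
  rw [Matrix.det_apply']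
  have h1 := nsum hN (Finset.univ : Finset (Equiv.Perm (Fin n)))
    (fun τ => ((Equiv.Perm.sign τ : ℤ) : A) * ∏ i, M (τ i) i) hR fun τ _ => by
      rcases Int.units_eq_one_or (Equiv.Perm.sign τ) with h3 | h3
      · rw [h3]
        simpa using h τ
      · rw [h3]
        simpa using nneg hN (h τ)
  rw [Finset.card_univ, Fintype.card_perm, Fintype.card_fin] at h1
  exact h1

/-- the frame of the field itself -/
lemma frK (v : AbsoluteValue K ℝ) : NFr v (fun (x : K) (T : ℝ) => v x ≤ T) where
  const := fun k => le_rfl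
  mul := fun f g S T hf hg => by
    rw [map_mul]
    exact mul_le_mul hf hg (v.nonneg _) ((v.nonneg _).trans hf)
  add := fun f g S T hf hg => (v.add_le f g).trans (add_le_add hf hg)
  max := fun hv f g S T hf hg => (hv f g).trans (max_le_max hf hg)
  mono := fun f S T h h' => h.trans h'
  nonneg := fun f T h => (v.nonneg _).trans h

/-- a polynomial in a frame -/
lemma fr_poly2 {σ : Type} [Fintype σ] (hN : NFr v N) (X : σ → A) (a : σ → ℝ) (ha : ∀ i, 1 ≤ a i)
    (hX : ∀ i, N (X i) (a i)) (q : MvPolynomial σ K) (d : σ → ℕ)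
    (hd : ∀ m ∈ q.support, ∀ i, m i ≤ d i) (S c : ℝ) (hS : 0 ≤ S) (hco : ∀ m, v (coeff m q) ≤ S)
    (hc : (q.support.card : ℝ) ≤ c) : N (aeval X q) (cst v c * (S * ∏ i, a i ^ d i)) := by
  have h1 : aeval X q = ∑ m ∈ q.support, coeff m q • aeval X (monomial m (1 : K)) := by
    conv_lhs => rw [← support_sum_monomial_coeff q]
    rw [map_sum]
    refine Finset.sum_congr rfl fun m _ => ?_
    rw [← map_smul, smul_monomial, smul_eq_mul, mul_one]
  rw [h1]
  have h0 : ∀ i, 0 ≤ a i := fun i => zero_le_one.trans (ha i)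
  have hP : 0 ≤ S * ∏ i, a i ^ d i := mul_nonneg hS (Finset.prod_nonneg fun i _ => pow_nonneg (h0 i) _)
  refine hN.mono _ _ _ (nsum hN q.support _ hP fun m hm => ?_)
    (mul_le_mul_of_nonneg_right (cst_mono v hc) hP)
  rw [Algebra.smul_def]
  refine hN.mono _ _ _ (hN.mul _ _ _ _ (hN.const _) (fr_mono hN X a hX m)) ?_
  refine mul_le_mul (hco m) ?_ (Finset.prod_nonneg fun i _ => pow_nonneg (h0 i) _) hS
  exact Finset.prod_le_prod (fun i _ => pow_nonneg (h0 i) _) fun i _ =>
    pow_le_pow_right₀ (ha i) (hd m hm i)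

end frames

/-- the number of monomials -/
lemma card_supp {K : Type} [Field K] {σ : Type} [Fintype σ] (q : MvPolynomial σ K) (N : ℕ)
    (hd : ∀ m ∈ q.support, ∀ i, m i ≤ N) : q.support.card ≤ (N + 1) ^ Fintype.card σ := by
  classical
  have h1 : q.support.card ≤ (Fintype.piFinset fun _ : σ => Finset.range (N + 1)).card := by
    refine Finset.card_le_card_of_injOn (fun m i => m i) ?_ ?_
    · intro m hm
      rw [Finset.mem_coe, Fintype.mem_piFinset]
      intro i
      exact Finset.mem_range.mpr (Nat.lt_succ_of_le (hd m hm i))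
    · intro m _ m' _ h
      exact Finsupp.ext fun i => congrFun h i
  rw [Fintype.card_piFinset, Finset.prod_const, Finset.card_range, Finset.card_univ] at h1
  exact h1

lemma le_mc {K : Type} [Field K] {σ : Type} (v : AbsoluteValue K ℝ) (h : MvPolynomial σ K)
    (m : σ →₀ ℕ) : v (coeff m h) ≤ Pool.Agent.Helper60.T3.mc v h := by
  classical
  unfold Pool.Agent.Helper60.T3.mc
  refine le_ciSup (f := fun m : σ →₀ ℕ => v (coeff m h)) ?_ m
  refine Set.Finite.bddAbove ?_
  refine Set.Finite.subset ((h.support.image fun m => v (coeff m h)).finite_toSet.insert 0) ?_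
  rintro _ ⟨m, rfl⟩
  by_cases hm : m ∈ h.support
  · exact Set.mem_insert_of_mem _ (Finset.mem_coe.mpr (Finset.mem_image_of_mem _ hm))
  · simp only
    rw [notMem_support_iff.mp hm, map_zero]
    exact Set.mem_insert _ _

/-! ## Degrees of a determinant -/

lemma degreeOf_det {K : Type} [Field K] {σ : Type} {n : ℕ} (M : Matrix (Fin n) (Fin n) (MvPolynomial σ K))
    (l : σ) (d : Fin n → ℕ) (h : ∀ i j, (M i j).degreeOf l ≤ d j) : M.det.degreeOf l ≤ ∑ j, d j := by
  classical
  rw [Matrix.det_apply']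
  refine (degreeOf_sum_le l _ _).trans (Finset.sup_le fun τ _ => ?_)
  have h1 : (∏ i, M (τ i) i).degreeOf l ≤ ∑ j, d j :=
    (degreeOf_prod_le l _ _).trans (Finset.sum_le_sum fun j _ => h _ _)
  rcases Int.units_eq_one_or (Equiv.Perm.sign τ) with h3 | h3
  · rw [h3]
    simpa using h1
  · rw [h3]
    simpa [degreeOf_neg] using h1

/-! ## Multihomogeneous values -/

section hvs

variable {R S : Type} [CommRing R] [CommRing S] (φ : R →+* S) {σ : Type} [Fintype σ]

lemma hv_add (E : σ → ℕ) (f g : MvPolynomial σ R) (y : σ → Fin 2 → S) :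
    hv φ E (f + g) y = hv φ E f y + hv φ E g y :=
  Pool.Agent.Helper16.UN.gHVB.1 R S φ σ E f g y

/-- `hv` as an additive map -/
noncomputable def hvA (E : σ → ℕ) (y : σ → Fin 2 → S) : MvPolynomial σ R →+ S where
  toFun f := hv φ E f y
  map_zero' := by unfold hv; simp
  map_add' f g := hv_add φ E f g y

lemma hv_monomial (E : σ → ℕ) (y : σ → Fin 2 → S) (m : σ →₀ ℕ) (c : R) :
    hv φ E (monomial m c) y = φ c * ∏ i, (y i 0 ^ m i * y i 1 ^ (E i - m i)) := by
  classical
  rw [Pool.Agent.Helper16.UN.hv_sub φ E (monomial m c) y {m} support_monomial_subset,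
    Finset.sum_singleton, coeff_monomial, if_pos rfl]

lemma hv_sum_monomial (E : σ → ℕ) (y : σ → Fin 2 → S) (f : MvPolynomial σ R) :
    hv φ E f y = ∑ m ∈ f.support, hv φ E (monomial m (coeff m f)) y := by
  unfold hv
  refine Finset.sum_congr rfl fun m hm => ?_
  exact (hv_monomial φ E y m (coeff m f)).symm

lemma hv_mul (E E' : σ → ℕ) (f g : MvPolynomial σ R) (y : σ → Fin 2 → S)
    (hf : ∀ i, f.degreeOf i ≤ E i) (hg : ∀ i, g.degreeOf i ≤ E' i) :
    hv φ (fun i => E i + E' i) (f * g) y = hv φ E f y * hv φ E' g y := by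
  have h1 : f * g = ∑ m ∈ f.support, ∑ m' ∈ g.support, monomial (m + m') (coeff m f * coeff m' g) := by
    conv_lhs => rw [← support_sum_monomial_coeff f, ← support_sum_monomial_coeff g]
    rw [Finset.sum_mul_sum]
    refine Finset.sum_congr rfl fun m _ => Finset.sum_congr rfl fun m' _ => ?_
    rw [monomial_mul]
  have h2 : hv φ (fun i => E i + E' i) (f * g) y =
      ∑ m ∈ f.support, ∑ m' ∈ g.support,
        hv φ (fun i => E i + E' i) (monomial (m + m') (coeff m f * coeff m' g)) y := by
    rw [h1]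
    show hvA φ (fun i => E i + E' i) y _ = _
    rw [map_sum]
    refine Finset.sum_congr rfl fun m _ => ?_
    rw [map_sum]
    rfl
  rw [h2, hv_sum_monomial φ E y f, hv_sum_monomial φ E' y g, Finset.sum_mul_sum]
  refine Finset.sum_congr rfl fun m hm => Finset.sum_congr rfl fun m' hm' => ?_
  rw [hv_monomial, hv_monomial, hv_monomial, map_mul, mul_mul_mul_comm, ← Finset.prod_mul_distrib]
  congr 1
  refine Finset.prod_congr rfl fun i _ => ?_
  have h3 : m i ≤ E i := Pool.Agent.Helper16.UN.deg_le' hf hm i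
  have h4 : m' i ≤ E' i := Pool.Agent.Helper16.UN.deg_le' hg hm' i
  have h5 : E i + E' i - (m + m') i = (E i - m i) + (E' i - m' i) := by
    rw [Finsupp.add_apply]
    omega
  rw [h5, Finsupp.add_apply, pow_add, pow_add]
  ring

lemma hv_one (y : σ → Fin 2 → S) : hv φ (fun _ => 0) (1 : MvPolynomial σ R) y = 1 := by
  have h : (1 : MvPolynomial σ R) = monomial 0 1 := rfl
  rw [h, hv_monomial]
  simp

lemma hv_prod {ι : Type} (s : Finset ι) (E : ι → σ → ℕ) (f : ι → MvPolynomial σ R)
    (y : σ → Fin 2 → S) (hf : ∀ j i, (f j).degreeOf i ≤ E j i) :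
    hv φ (fun i => ∑ j ∈ s, E j i) (∏ j ∈ s, f j) y = ∏ j ∈ s, hv φ (E j) (f j) y := by
  classical
  induction s using Finset.induction_on with
  | empty =>
    simp only [Finset.sum_empty, Finset.prod_empty]
    exact hv_one φ y
  | insert a s ha ih =>
    rw [Finset.prod_insert ha, Finset.prod_insert ha, ← ih]
    simp only [Finset.sum_insert ha]
    exact hv_mul φ (E a) (fun i => ∑ j ∈ s, E j i) _ _ y (hf a) fun i =>
      (degreeOf_prod_le i _ _).trans (Finset.sum_le_sum fun j _ => hf j i)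

lemma hv_det {n : ℕ} (E : Fin n → σ → ℕ) (M : Matrix (Fin n) (Fin n) (MvPolynomial σ R))
    (y : σ → Fin 2 → S) (hM : ∀ i j l, (M i j).degreeOf l ≤ E j l) :
    hv φ (fun l => ∑ j, E j l) M.det y = (Matrix.of fun i j => hv φ (E j) (M i j) y).det := by
  classical
  rw [Matrix.det_apply, Matrix.det_apply]
  show hvA φ (fun l => ∑ j, E j l) y _ = _
  rw [map_sum]
  refine Finset.sum_congr rfl fun τ _ => ?_
  rw [Units.smul_def, Units.smul_def, map_zsmul]
  congr 1
  exact hv_prod φ Finset.univ E (fun j => M (τ j) j) y fun j i => hM _ _ _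

end hvs

end Pool.Agent.Helper41.T3.RL
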