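import Pool.Agent.Helper41.T3.RL1

/-!
# Packet T3-RL (MP_a41896_nt), part 2: common zeros, the Sylvester matrix
-/

set_option autoImplicit false

open MvPolynomial

namespace Pool.Agent.Helper41.T3.RL

open Pool.Agent.Helper29.BL Pool.Agent.Helper42.SG
open Pool.Agent.Helper5.UN (hv)
open Pool.Agent.Helper92.ZH (sepV)

/-! ## Binary forms with vanishing resultant -/

lemma cz_aux {Ω : Type} [Field Ω] [IsAlgClosed Ω] (P Q : Polynomial Ω) (A B : ℕ)
    (hP : P.natDegree ≤ A) (hQ : Q.natDegree ≤ B) (hPA : P.coeff A ≠ 0)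
    (h : P.resultant Q A B = 0) : ∃ ζ : Ω, P.eval ζ = 0 ∧ Q.eval ζ = 0 := by
  have hA : P.natDegree = A := le_antisymm hP (Polynomial.le_natDegree_of_ne_zero hPA)
  obtain ⟨m, hm⟩ := Nat.exists_eq_add_of_le hQ
  rw [hm, Polynomial.resultant_add_right_deg _ _ _ _ m le_rfl] at h
  have h1 : P.resultant Q A Q.natDegree = 0 := (mul_eq_zero.mp h).resolve_left (pow_ne_zero _ hPA)
  rw [← hA] at h1
  have h2 := (Polynomial.resultant_eq_zero_iff.mp h1).2
  rw [Polynomial.isCoprime_iff_aeval_ne_zero_of_isAlgClosed (k := Ω) (K := Ω)] at h2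
  push Not at h2
  obtain ⟨ζ, h3, h4⟩ := h2
  exact ⟨ζ, by simpa [Polynomial.coe_aeval_eq_eval] using h3, by simpa [Polynomial.coe_aeval_eq_eval] using h4⟩

lemma common_zero {Ω : Type} [Field Ω] [IsAlgClosed Ω] (P Q : Polynomial Ω) (A B : ℕ)
    (hP : P.natDegree ≤ A) (hQ : Q.natDegree ≤ B)
    (h : P.resultant Q A B = 0) : ∃ u : Fin 2 → Ω, u ≠ 0 ∧
      ∑ t ∈ Finset.range (A + 1), P.coeff t * (u 0 ^ t * u 1 ^ (A - t)) = 0 ∧
      ∑ t ∈ Finset.range (B + 1), Q.coeff t * (u 0 ^ t * u 1 ^ (B - t)) = 0 := by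
  have hfin : ∀ ζ : Ω, P.eval ζ = 0 → Q.eval ζ = 0 → ∃ u : Fin 2 → Ω, u ≠ 0 ∧
      ∑ t ∈ Finset.range (A + 1), P.coeff t * (u 0 ^ t * u 1 ^ (A - t)) = 0 ∧
      ∑ t ∈ Finset.range (B + 1), Q.coeff t * (u 0 ^ t * u 1 ^ (B - t)) = 0 := by
    intro ζ h1 h2
    refine ⟨![ζ, 1], fun h3 => ?_, ?_, ?_⟩
    · have h4 := congrFun h3 1
      simp at h4
    · rw [Polynomial.eval_eq_sum_range' (Nat.lt_succ_of_le hP)] at h1
      simpa using h1
    · rw [Polynomial.eval_eq_sum_range' (Nat.lt_succ_of_le hQ)] at h2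
      simpa using h2
  by_cases hPA : P.coeff A = 0
  · by_cases hQB : Q.coeff B = 0
    · have key : ∀ (F : Polynomial Ω) (D : ℕ), F.coeff D = 0 →
          ∑ t ∈ Finset.range (D + 1), F.coeff t * ((![1, 0] : Fin 2 → Ω) 0 ^ t * (![1, 0] : Fin 2 → Ω) 1 ^ (D - t)) = 0 := by
        intro F D hF
        refine Finset.sum_eq_zero fun t ht => ?_
        have h1 := Finset.mem_range.mp ht
        by_cases h2 : t = D
        · rw [h2, hF, zero_mul]
        · have h3 : D - t ≠ 0 := by omega
          simp [h3]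
      refine ⟨![1, 0], fun h3 => ?_, key P A hPA, key Q B hQB⟩
      have h4 := congrFun h3 0
      simp at h4
    · rw [Polynomial.resultant_comm] at h
      have h1 : Q.resultant P B A = 0 := by
        rcases mul_eq_zero.mp h with h2 | h2
        · exact absurd h2 (pow_ne_zero _ (neg_ne_zero.mpr one_ne_zero))
        · exact h2
      obtain ⟨ζ, h2, h3⟩ := cz_aux Q P B A hQ hP hQB h1
      exact hfin ζ h3 h2
  · obtain ⟨ζ, h2, h3⟩ := cz_aux P Q A B hP hQ hPA h
    exact hfin ζ h2 h3

/-! ## The multihomogeneous value as a binary form in one pair -/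

section upd

variable {K S : Type} [Field K] [CommRing S] (φ : K →+* S) {σ : Type} [Fintype σ] [DecidableEq σ]

/-- the exponents without the variable `k` -/
def wo (k : σ) (a : σ → ℕ) (l : σ) : ℕ := if l = k then 0 else a l

lemma hv_update (k : σ) (a : σ → ℕ) (p : MvPolynomial σ K) (hp : ∀ l, p.degreeOf l ≤ a l)
    (y : σ → Fin 2 → S) (u : Fin 2 → S) :
    hv φ a p (Function.update y k u) = ∑ t ∈ Finset.range (a k + 1),
      hv φ (wo k a) ((sepV k p).coeff t) y * (u 0 ^ t * u 1 ^ (a k - t)) := by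
  have h1 : ∀ t, hv φ (wo k a) ((sepV k p).coeff t) y =
      ∑ m ∈ p.support, hv φ (wo k a) ((sepV k (monomial m (coeff m p))).coeff t) y := by
    intro t
    conv_lhs => rw [← support_sum_monomial_coeff p, map_sum, Polynomial.finsetSum_coeff]
    show hvA φ (wo k a) y _ = _
    rw [map_sum]
    rfl
  rw [hv_sum_monomial φ a]
  simp_rw [h1, Finset.sum_mul]
  rw [Finset.sum_comm]
  refine Finset.sum_congr rfl fun m hm => ?_
  have hmk : m k ≤ a k := Pool.Agent.Helper16.UN.deg_le' hp hm k
  rw [Finset.sum_eq_single (m k)]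
  · rw [Pool.Agent.Helper41.ZH.SEPV.mono, Polynomial.coeff_C_mul_X_pow, if_pos rfl, hv_monomial, hv_monomial,
      ← Finset.mul_prod_erase Finset.univ (fun i => (Function.update y k u) i 0 ^ m i *
        (Function.update y k u) i 1 ^ (a i - m i)) (Finset.mem_univ k),
      ← Finset.mul_prod_erase Finset.univ (fun i => y i 0 ^ (m.erase k) i *
        y i 1 ^ (wo k a i - (m.erase k) i)) (Finset.mem_univ k),
      Function.update_self, Finsupp.erase_same, wo, if_pos rfl]
    have h2 : ∏ i ∈ Finset.univ.erase k, ((Function.update y k u) i 0 ^ m i *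
        (Function.update y k u) i 1 ^ (a i - m i)) =
        ∏ i ∈ Finset.univ.erase k, (y i 0 ^ (m.erase k) i * y i 1 ^ (wo k a i - (m.erase k) i)) := by
      refine Finset.prod_congr rfl fun i hi => ?_
      have hne : i ≠ k := (Finset.mem_erase.mp hi).1
      rw [Function.update_of_ne hne, Finsupp.erase_ne hne, wo, if_neg hne]
    rw [h2]
    simp only [pow_zero, Nat.sub_self, mul_one, one_mul]
    ring
  · intro t _ ht
    rw [Pool.Agent.Helper41.ZH.SEPV.mono, Polynomial.coeff_C_mul_X_pow, if_neg ht]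
    have h3 : hv φ (wo k a) (0 : MvPolynomial σ K) y = 0 := (hvA φ (wo k a) y).map_zero
    rw [h3, zero_mul]
  · intro ht
    exact absurd (Finset.mem_range.mpr (by omega)) ht

end upd

/-! ## The Sylvester matrix -/

section syl

variable {K : Type} [Field K] {σ : Type} [Fintype σ] [DecidableEq σ] (k : σ) (a b : σ → ℕ)
  (p h : MvPolynomial σ K)

/-- the matrix -/
noncomputable def SM : Matrix (Fin (a k + b k)) (Fin (a k + b k)) (MvPolynomial σ K) :=
  Polynomial.sylvester (sepV k p) (sepV k h) (a k) (b k)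

/-- something which depends on the type of the column -/
def col {α : Type} (x y : α) : Fin (a k + b k) → α := Fin.addCases (fun _ => x) (fun _ => y)

@[simp] lemma col_left {α : Type} (x y : α) (j : Fin (a k)) : col k a b x y (Fin.castAdd (b k) j) = x :=
  Fin.addCases_left _

@[simp] lemma col_right {α : Type} (x y : α) (j : Fin (b k)) : col k a b x y (Fin.natAdd (a k) j) = y :=
  Fin.addCases_right _

lemma SM_left (i : Fin (a k + b k)) (j : Fin (a k)) :
    SM k a b p h i (Fin.castAdd (b k) j) =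
      if (i : ℕ) ∈ Set.Icc (j : ℕ) (j + b k) then (sepV k h).coeff (i - j) else 0 := by
  unfold SM Polynomial.sylvester
  rw [Matrix.of_apply, Fin.addCases_left]

lemma SM_right (i : Fin (a k + b k)) (j : Fin (b k)) :
    SM k a b p h i (Fin.natAdd (a k) j) =
      if (i : ℕ) ∈ Set.Icc (j : ℕ) (j + a k) then (sepV k p).coeff (i - j) else 0 := by
  unfold SM Polynomial.sylvester
  rw [Matrix.of_apply, Fin.addCases_right]

/-- a property of all entries -/
lemma SM_all {Pr : Fin (a k + b k) → MvPolynomial σ K → Prop}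
    (h0 : ∀ j, Pr j 0) (h1 : ∀ j t, Pr (Fin.castAdd (b k) j) ((sepV k h).coeff t))
    (h2 : ∀ j t, Pr (Fin.natAdd (a k) j) ((sepV k p).coeff t)) (i j : Fin (a k + b k)) :
    Pr j (SM k a b p h i j) := by
  induction j using Fin.addCases with
  | left j =>
    rw [SM_left]
    split_ifs
    · exact h1 _ _
    · exact h0 _
  | right j =>
    rw [SM_right]
    split_ifs
    · exact h2 _ _
    · exact h0 _

lemma sum_col (x y : ℕ) : ∑ j, col k a b x y j = a k * x + b k * y := by
  rw [Fin.sum_univ_add]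
  simp

lemma prod_col (x y : ℝ) : ∏ j, col k a b x y j = x ^ a k * y ^ b k := by
  rw [Fin.prod_univ_add]
  simp

lemma sepV_deg (q : MvPolynomial σ K) (c : σ → ℕ) (hq : ∀ l, q.degreeOf l ≤ c l) (t : ℕ) (l : σ) :
    ((sepV k q).coeff t).degreeOf l ≤ wo k c l := by
  obtain ⟨-, -, h3, h4, -⟩ := Pool.Agent.Helper41.ZH.SEPV.t K σ k q
  unfold wo
  split_ifs with hl
  · subst hl
    exact (h4 t).le
  · exact (h3 t l).trans (hq l)

lemma deg_eq : (fun l => if l = k then 0 else b k * a l + a k * b l) =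
    fun l => ∑ j, (col k a b (wo k b) (wo k a)) j l := by
  funext l
  have h1 : ∀ j, (col k a b (wo k b) (wo k a)) j l = col k a b (wo k b l) (wo k a l) j := by
    intro j
    induction j using Fin.addCases <;> simp
  simp_rw [h1]
  rw [sum_col]
  unfold wo
  split_ifs
  · simp
  · ring

variable (hp : ∀ l, p.degreeOf l ≤ a l) (hh : ∀ l, h.degreeOf l ≤ b l)

include hp hh

lemma SM_deg (i j : Fin (a k + b k)) (l : σ) :
    (SM k a b p h i j).degreeOf l ≤ (col k a b (wo k b) (wo k a)) j l := by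
  refine SM_all k a b p h (Pr := fun j q => q.degreeOf l ≤ (col k a b (wo k b) (wo k a)) j l)
    (fun j => ?_) (fun j t => ?_) (fun j t => ?_) i j
  · rw [degreeOf_zero]
    exact Nat.zero_le _
  · rw [col_left]
    exact sepV_deg k h b hh t l
  · rw [col_right]
    exact sepV_deg k p a hp t l

lemma det_deg (l : σ) : (SM k a b p h).det.degreeOf l ≤ if l = k then 0 else b k * a l + a k * b l := by
  have h1 := degreeOf_det (SM k a b p h) l (fun j => (col k a b (wo k b) (wo k a)) j l)
    fun i j => SM_deg k a b p h hp hh i j l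
  have h2 := congrFun (deg_eq k a b) l
  exact h1.trans h2.symm.le

/-- the value of the resultant is the resultant of the values -/
lemma hv_SM {S : Type} [CommRing S] (φ : K →+* S) (y : σ → Fin 2 → S) (P Q : Polynomial S)
    (hP : ∀ t, P.coeff t = hv φ (wo k a) ((sepV k p).coeff t) y)
    (hQ : ∀ t, Q.coeff t = hv φ (wo k b) ((sepV k h).coeff t) y) :
    hv φ (fun l => if l = k then 0 else b k * a l + a k * b l) (SM k a b p h).det y =
      P.resultant Q (a k) (b k) := by
  rw [deg_eq, hv_det φ (col k a b (wo k b) (wo k a)) (SM k a b p h) y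
    fun i j l => SM_deg k a b p h hp hh i j l]
  unfold Polynomial.resultant
  congr 1
  ext i j
  rw [Matrix.of_apply]
  have hz : ∀ E : σ → ℕ, hv φ E (0 : MvPolynomial σ K) y = 0 := fun E => (hvA φ E y).map_zero
  induction j using Fin.addCases with
  | left j =>
    rw [SM_left, col_left]
    unfold Polynomial.sylvester
    rw [Matrix.of_apply, Fin.addCases_left]
    split_ifs
    · exact (hQ _).symm
    · exact hz _
  | right j =>
    rw [SM_right, col_right]
    unfold Polynomial.sylvester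
    rw [Matrix.of_apply, Fin.addCases_right]
    split_ifs
    · exact (hP _).symm
    · exact hz _

/-- the nonvanishing -/
lemma nonvan {Ω : Type} [Field Ω] [IsAlgClosed Ω] (φ : K →+* Ω) (y : σ → Fin 2 → Ω)
    (h0 : hv φ (fun l => if l = k then 0 else b k * a l + a k * b l) (SM k a b p h).det y = 0) :
    ∃ u : Fin 2 → Ω, u ≠ 0 ∧ hv φ a p (Function.update y k u) = 0 ∧
      hv φ b h (Function.update y k u) = 0 := by
  have hz : ∀ E : σ → ℕ, hv φ E (0 : MvPolynomial σ K) y = 0 := fun E => (hvA φ E y).map_zero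
  -- polynomials with given coefficients
  have hex : ∀ (q : MvPolynomial σ K) (c : σ → ℕ), (∀ l, q.degreeOf l ≤ c l) →
      ∃ P : Polynomial Ω, P.natDegree ≤ c k ∧ ∀ t, P.coeff t = hv φ (wo k c) ((sepV k q).coeff t) y := by
    intro q c hq
    refine ⟨∑ t ∈ Finset.range (c k + 1), Polynomial.C (hv φ (wo k c) ((sepV k q).coeff t) y) *
      Polynomial.X ^ t, ?_, fun t => ?_⟩
    · refine Polynomial.natDegree_sum_le_of_forall_le _ _ fun t ht => ?_
      exact (Polynomial.natDegree_C_mul_X_pow_le _ _).trans (Nat.lt_succ_iff.mp (Finset.mem_range.mp ht))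
    · rw [Polynomial.finsetSum_coeff]
      simp_rw [Polynomial.coeff_C_mul_X_pow]
      rw [Finset.sum_ite_eq]
      split_ifs with ht
      · rfl
      · have h1 : (sepV k q).natDegree < t := by
          rw [(Pool.Agent.Helper41.ZH.SEPV.t K σ k q).1]
          have h2 := hq k
          have h3 : ¬ t < c k + 1 := fun h => ht (Finset.mem_range.mpr h)
          omega
        rw [Polynomial.coeff_eq_zero_of_natDegree_lt h1, hz]
  obtain ⟨P, hPd, hPc⟩ := hex p a hp
  obtain ⟨Q, hQd, hQc⟩ := hex h b hh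
  rw [hv_SM k a b p h hp hh φ y P Q hPc hQc] at h0
  obtain ⟨u, hu, h1, h2⟩ := common_zero P Q (a k) (b k) hPd hQd h0
  refine ⟨u, hu, ?_, ?_⟩
  · rw [hv_update φ k a p hp, ← h1]
    exact Finset.sum_congr rfl fun t _ => by rw [hPc]
  · rw [hv_update φ k b h hh, ← h2]
    exact Finset.sum_congr rfl fun t _ => by rw [hQc]

end syl

end Pool.Agent.Helper41.T3.RL
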